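import Pool.Agent.Y853.EM.Rat

/-!
# One-sided sup norms of the Moebius exponential sum

Let `F_R(x) = ∑_{n ≤ R} μ(n) e(nx)`. The part `G_R` of `F_R` over the odd `n` satisfies
`G_R(x + 1/2) = -G_R(x)` and `F_R(x) = G_R(x) - G_{R/2}(2x)`, so that one-sided bounds for `F_R` on the circle
give two-sided bounds, and bounds on a quarter of the circle give bounds on the circle, with no loss in the
order of magnitude.

The unconditional part (1) uses the method of `MP_b6b996_nt.SqrtBoundFails` (helper821, with helpers 672, 571,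
781, 998, 287, 925, 515, 971, 894, 864, 785), whose parts are imported; they only need even characters modulo
`p ^ (2l)`, so that the real parts `∑ μ(n) cos(2π a n / p ^ (2l))` are not `O(√R)`; with the identities above
one gets the one-sided statement.
-/

set_option autoImplicit false

open Filter

namespace Pool.Agent.Results.MP_b6b996_nt.OneSidedSup

/-- The Moebius exponential sum `F_R(x) = ∑_{n=1}^R μ(n) e^{2πinx}`. -/
noncomputable def F (R : ℕ) (x : ℝ) : ℂ :=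
  ∑ n ∈ Finset.Icc 1 R, ((ArithmeticFunction.moebius n : ℤ) : ℂ) *
    Complex.exp (2 * Real.pi * Complex.I * n * x)

/-- The same sum with the Liouville function `λ(n) = (-1)^Ω(n)`. -/
noncomputable def L (R : ℕ) (x : ℝ) : ℂ :=
  ∑ n ∈ Finset.Icc 1 R, ((ArithmeticFunction.liouville n : ℤ) : ℂ) *
    Complex.exp (2 * Real.pi * Complex.I * n * x)

/-- `G_R(x) = O(R^(a + ε))` for every `ε > 0`, uniformly in `x`. -/
def Bound (G : ℕ → ℝ → ℂ) (a : ℝ) : Prop := ∀ ε : ℝ, 0 < ε → ∃ C : ℝ, ∀ (R : ℕ) (x : ℝ),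
  ‖G R x‖ ≤ C * (R : ℝ) ^ (a + ε)

/-- The one-sided bound `Re (w G_R(x)) ≤ C R^(a + ε)` for every `ε > 0`, uniformly in `x`. -/
def UpperBound (w : ℂ) (G : ℕ → ℝ → ℂ) (a : ℝ) : Prop := ∀ ε : ℝ, 0 < ε → ∃ C : ℝ, ∀ (R : ℕ) (x : ℝ),
  (w * G R x).re ≤ C * (R : ℝ) ^ (a + ε)

/-- `G_R(x) = O(R^(a + ε))` for every `ε > 0`, uniformly in `0 ≤ x ≤ 1/4`. -/
def QuarterBound (G : ℕ → ℝ → ℂ) (a : ℝ) : Prop := ∀ ε : ℝ, 0 < ε → ∃ C : ℝ, ∀ (R : ℕ) (x : ℝ),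
  0 ≤ x → x ≤ 1 / 4 → ‖G R x‖ ≤ C * (R : ℝ) ^ (a + ε)

/-- The constant `(2^b + 1) / (2^b - 1)`. -/
noncomputable def kappa (b : ℝ) : ℝ := (1 + (2 : ℝ) ^ (-b)) / (1 - (2 : ℝ) ^ (-b))

theorem result :
    (∀ p : ℕ, p.Prime → p ≠ 2 → ∀ w : ℂ, w.re ≠ 0 → ∀ C : ℝ, ∃ l₀ : ℕ, ∀ l : ℕ, l₀ ≤ l →
      ∃ b : ℕ, b < 2 * p ^ (2 * l) ∧
        ∃ᶠ R : ℕ in atTop, C * Real.sqrt R < (w * F R ((b : ℝ) / (2 * p ^ (2 * l) : ℕ))).re) ∧
    (∀ C : ℝ, ∃ᶠ R : ℕ in atTop, ∃ x ∈ Set.Icc (0 : ℝ) (1 / 4), C * Real.sqrt R < ‖F R x‖) ∧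
    (∀ b : ℝ, 0 < b → ∀ C : ℝ, 0 ≤ C →
      (∀ w : ℂ, (∀ (R : ℕ) (x : ℝ), (w * F R x).re ≤ C * (R : ℝ) ^ b) →
        ∀ (R : ℕ) (x : ℝ), |(w * F R x).re| ≤ kappa b * C * (R : ℝ) ^ b) ∧
      ((∀ (R : ℕ) (x : ℝ), 0 ≤ x → x ≤ 1 / 4 → ‖F R x‖ ≤ C * (R : ℝ) ^ b) →
        ∀ (R : ℕ) (x : ℝ), ‖F R x‖ ≤ kappa b * C * (R : ℝ) ^ b)) ∧
    (∀ w : ℂ, w ≠ 0 → ∀ a : ℝ, 1 / 2 ≤ a →
      List.TFAE [Bound F a, UpperBound w F a, QuarterBound F a, Bound L a, UpperBound w L a]) := by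
  have hk : ∀ b : ℝ, kappa b = (1 + (2 : ℝ) ^ (-b)) * Pool.Agent.Y853.EM.kap b := by
    intro b
    unfold kappa Pool.Agent.Y853.EM.kap
    rw [mul_one_div]
  refine ⟨fun p hp hp2 w hw C => Pool.Agent.Y853.EM.omega_rat p hp hp2 w hw C,
    fun C => Pool.Agent.Y853.EM.omega_quarter C, fun b hb C hC => ⟨fun w h R x => ?_, fun h R x => ?_⟩,
    fun w hw a ha => Pool.Agent.Y853.EM.tfae w hw ha⟩
  · rw [hk]
    exact Pool.Agent.Y853.EM.one_two Pool.Agent.Y853.EM.mu_two hb hC w h R x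
  · rw [hk]
    exact Pool.Agent.Y853.EM.all_of_quarter Pool.Agent.Y853.EM.mu_two Pool.Agent.Y853.EM.muc_conj hb hC h R x

end Pool.Agent.Results.MP_b6b996_nt.OneSidedSup
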