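import Pool.Agent.Y821.ME.Top2

/-!
# MP_b6b996_nt: the sup norm of the Möbius exponential sum is not `O(√R)`

For `F_R(x) = ∑_{n ≤ R} μ(n) e(nx)` we prove, unconditionally:

* for every odd prime `p` and every `C`, for ALL sufficiently large `l` there is a reduced fraction
  `a / p ^ (2l)` such that `|F_R(a / p ^ (2l))| > C √R` for arbitrarily large `R`;
* hence `limsup_R sup_{x ∈ [0,1]} |F_R(x)| / √R = ∞`.

Before this, the only lower bound was the one of Parseval, `sup |F_R| ≥ (√(6/π²) + o(1)) √R`.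

Idea of the proof (a form of Ingham's method).  Let `q = p ^ (2l)` and suppose that `|F_R(a/q)| ≤ C √R` for all
large `R` and all `a` prime to `p`.  Then `M(v, χ) = O(√v)` for all primitive even characters `χ` modulo `q`,
so that the zeros of `L(s, χ)` in the critical strip are simple and on the critical line.  Let `a_χ(u)` be a
smooth mean of `M(v, χ)` around `v = e^u √(q/π)`, divided by `e^(u/2)`.  By the functional equation
`a_χ(u) - W(χ)⁻¹ a_{χ⁻¹}(-u)` is a sum over the zeros (after a convolution with a band limited kernel it is a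
trigonometric polynomial), so that its supremum is its upper limit at `+∞`, simultaneously for all linear
combinations over `χ`.  With Gauss sums as coefficients we see `∑ μ(n) cos(2π a n / q)` at `+∞`; at finite
negative `u` we see `∑ μ(m) Kl(a/m) V(m e^(-|u|))` with the Kloosterman sums modulo `p ^ (2l)`, which are
`4 p^l cos(4π b r_m / q)` for `a = b²`, `r_m² m = 1`, and vanish for `m` which are not squares modulo `p`.  The
square roots of the squarefree integers (positive and negative) which are squares modulo `p` are linearly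
independent in the `p`-adic integers.  For large `l` a Riesz product in `b` modulo `p ^ (2l)` therefore makes
these cosines resemble `μ(m)` for `m` in `[2N, 3N]`, `m ≡ 1` modulo `p`, and have mean zero for all other
squarefree `m`.  This gives a lower bound `c √N / p` for the left hand side, and `N` is arbitrary.

Parts of the proof were formalised by helper672 (trigonometric polynomials), helper571 (supremum), helper781
(Laplace transforms, independence, Kloosterman sums), helper998 (series), helper287 (`L`-functions), helper925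
(functional equation), helper515 (characters), helper971 (Kloosterman sums), helper894 (independence), helper864
(Riesz products), helper785 (squarefree numbers), helper405; plan and assembly by helper821.
-/

set_option autoImplicit false

open Filter

namespace Pool.Agent.Results.MP_b6b996_nt.SqrtBoundFails

/-- the Möbius exponential sum `F_R(x) = ∑_{n=1}^R μ(n) e^{2πinx}` -/
noncomputable def F (R : ℕ) (x : ℝ) : ℂ :=
  ∑ n ∈ Finset.Icc 1 R, ((ArithmeticFunction.moebius n : ℤ) : ℂ) *
    Complex.exp (2 * Real.pi * Complex.I * n * x)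

/-- the sup norm of `F_R` on `[0, 1]` -/
noncomputable def supF (R : ℕ) : ℝ := ⨆ x : Set.Icc (0 : ℝ) 1, ‖F R x‖

lemma F_eq (R : ℕ) (x : ℝ) : F R x = Pool.Agent.Y821.ME.F R x := rfl

lemma F_add_nat (R : ℕ) (x : ℝ) (k : ℕ) : F R (x + k) = F R x := by
  unfold F
  apply Finset.sum_congr rfl
  intro n _
  congr 1
  have h : (2 * Real.pi * Complex.I * n * ((x + k : ℝ) : ℂ) : ℂ) =
      2 * Real.pi * Complex.I * n * x + ((n * k : ℕ) : ℂ) * (2 * Real.pi * Complex.I) := by
    push_cast
    ring
  rw [h, Complex.exp_add, Complex.exp_nat_mul_two_pi_mul_I, mul_one]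

lemma bdd (R : ℕ) : BddAbove (Set.range fun x : Set.Icc (0 : ℝ) 1 => ‖F R x‖) := by
  refine ⟨∑ n ∈ Finset.Icc 1 R, ‖((ArithmeticFunction.moebius n : ℤ) : ℂ)‖, ?_⟩
  rintro _ ⟨x, rfl⟩
  refine (norm_sum_le _ _).trans (le_of_eq ?_)
  apply Finset.sum_congr rfl
  intro n _
  rw [norm_mul]
  have h : (2 * Real.pi * Complex.I * n * ((x : ℝ) : ℂ) : ℂ) = ((2 * Real.pi * n * x : ℝ) : ℂ) * Complex.I := by
    push_cast
    ring
  rw [h, Complex.norm_exp_ofReal_mul_I, mul_one]

/-- For every odd prime `p` and every `C`, for all large `l` there is a reduced fraction `a / p ^ (2l)` in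
`[0, 1)` with `|F_R(a / p ^ (2l))| > C √R` for arbitrarily large `R`.  Hence the limit superior of
`‖F_R‖_∞ / √R` is infinite. -/
theorem result :
    (∀ p : ℕ, p.Prime → p ≠ 2 → ∀ C : ℝ, ∃ l₀ : ℕ, ∀ l : ℕ, l₀ ≤ l →
      ∃ a : ℕ, a < p ^ (2 * l) ∧ Nat.Coprime a p ∧
        ∃ᶠ R : ℕ in atTop, C * Real.sqrt R < ‖F R ((a : ℝ) / (p : ℝ) ^ (2 * l))‖) ∧
    (∀ C : ℝ, ∃ᶠ R : ℕ in atTop, C * Real.sqrt R < supF R) := by
  have h1 : ∀ p : ℕ, p.Prime → p ≠ 2 → ∀ C : ℝ, ∃ l₀ : ℕ, ∀ l : ℕ, l₀ ≤ l →
      ∃ a : ℕ, a < p ^ (2 * l) ∧ Nat.Coprime a p ∧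
        ∃ᶠ R : ℕ in atTop, C * Real.sqrt R < ‖F R ((a : ℝ) / (p : ℝ) ^ (2 * l))‖ := by
    intro p hp hp2 C
    obtain ⟨l₀, hl₀⟩ := Pool.Agent.Y821.ME.top2 p hp hp2 C
    refine ⟨max l₀ 1, fun l hl => ?_⟩
    obtain ⟨a, ha, hR⟩ := hl₀ l ((le_max_left _ _).trans hl)
    have hl1 : 1 ≤ l := (le_max_right _ _).trans hl
    have hpos : 0 < p ^ (2 * l) := pow_pos hp.pos _
    have hpd : p ∣ p ^ (2 * l) := dvd_pow_self p (by omega)
    refine ⟨a % p ^ (2 * l), Nat.mod_lt _ hpos, ?_, ?_⟩
    · rw [Nat.coprime_comm, hp.coprime_iff_not_dvd]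
      intro h
      exact ha ((Nat.dvd_mod_iff hpd).mp h)
    · refine hR.mono fun R h => ?_
      have e : (((a / (p ^ (2 * l) : ℕ) : ℚ)) : ℝ) =
          ((a % p ^ (2 * l) : ℕ) : ℝ) / (p : ℝ) ^ (2 * l) + ((a / p ^ (2 * l) : ℕ) : ℝ) := by
        have hd := Nat.mod_add_div a (p ^ (2 * l))
        have hd' : (((a % p ^ (2 * l) : ℕ) : ℝ)) + (p : ℝ) ^ (2 * l) * ((a / p ^ (2 * l) : ℕ) : ℝ) = a := by
          exact_mod_cast hd
        have hp0 : ((p : ℝ) ^ (2 * l)) ≠ 0 := by
          have : (0 : ℝ) < p := by exact_mod_cast hp.pos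
          positivity
        push_cast
        push_cast at hd'
        rw [← hd']
        field_simp
      rw [← F_eq, e, F_add_nat] at h
      exact h
  refine ⟨h1, fun C => ?_⟩
  obtain ⟨l₀, hl₀⟩ := h1 3 Nat.prime_three (by norm_num) C
  obtain ⟨a, ha, -, hR⟩ := hl₀ l₀ le_rfl
  refine hR.mono fun R h => h.trans_le ?_
  have hx : ((a : ℝ) / ((3 : ℕ) : ℝ) ^ (2 * l₀)) ∈ Set.Icc (0 : ℝ) 1 := by
    constructor
    · positivity
    · rw [div_le_one (by positivity)]
      exact_mod_cast ha.le
  exact le_ciSup (bdd R) ⟨_, hx⟩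

end Pool.Agent.Results.MP_b6b996_nt.SqrtBoundFails
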